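import Mathlib
import Pool.Agent.R879.Cappitt

set_option autoImplicit false

namespace Pool.Agent.Results.MP_b1a016_al.Periodic

/-- `G` is a pro-`p` group: a compact Hausdorff totally disconnected topological group in which
every open normal subgroup has index a power of `p`. -/
structure IsProP (p : ℕ) (G : Type) [Group G] [TopologicalSpace G] : Prop where
  topGroup : IsTopologicalGroup G
  compact : CompactSpace G
  hausdorff : T2Space G
  totDisc : TotallyDisconnectedSpace G
  index : ∀ U : Subgroup G, U.Normal → IsOpen (U : Set G) → ∃ n : ℕ, U.index = p ^ n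

/-- `S̃(G)` as a set: the closure of the subgroup generated by all closed subgroups of `G` that are
not normal. -/
def Stilde (G : Type) [Group G] [TopologicalSpace G] : Set G :=
  closure ((sSup {L : Subgroup G | IsClosed (L : Set G) ∧ ¬ L.Normal} : Subgroup G) : Set G)

/-- Every non-abelian pro-`p` Cappitt group (`S̃(G) ≠ G`) is periodic. -/
theorem result (p : ℕ) (hp : p.Prime) (G : Type) [Group G] [TopologicalSpace G] (hG : IsProP p G)
    (hS : Stilde G ≠ Set.univ) (hna : ∃ a b : G, a * b ≠ b * a) :
    ∀ z : G, ∃ n : ℕ, 0 < n ∧ z ^ n = 1 := by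
  have := hG.topGroup
  have := hG.compact
  have := hG.hausdorff
  have := hG.totDisc
  set S : Subgroup G :=
    (sSup {L : Subgroup G | IsClosed (L : Set G) ∧ ¬ L.Normal} : Subgroup G).topologicalClosure
  have hHyp : Pool.Agent.R879.Cappitt.Hyp S := by
    refine ⟨fun h => hS ?_, fun L hL hLS => ?_⟩
    · have h2 : ((S : Subgroup G) : Set G) = Set.univ := by rw [h]; rfl
      exact h2
    · by_contra hn
      apply hLS
      exact (le_sSup (show L ∈ {L : Subgroup G | IsClosed (L : Set G) ∧ ¬ L.Normal} from
        ⟨hL, hn⟩)).trans (Subgroup.le_topologicalClosure _)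
  intro z
  exact isOfFinOrder_iff_pow_eq_one.mp
    (Pool.Agent.R879.Cappitt.periodic hp hG.index hHyp hna z)

end Pool.Agent.Results.MP_b1a016_al.Periodic
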